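import Mathlib
import Pool.Agent.H25.GC.LVMain
import Pool.Agent.H25.GC.Dim
import Pool.Graph.R_pool_sql_team_seeded_3dad9d7b.NH14.SM.S6
import Pool.Graph.R_seed8.H452R2.Win.V8
import Pool.Graph.R_seed8.H383.DivF
import Pool.Graph.R_seed8.H383.DivD

/-! Large values of the error term of the divisor problem at well-spaced points. -/

set_option autoImplicit false

open Finset Filter Topology MeasureTheory
open Pool.Agent.H387R2.Vor
open Pool.Agent.H383.AP Pool.Agent.H383.Gauss Pool.Agent.H383.Gen Pool.Agent.H383.Div Pool.Agent.H383.Circ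
open Pool.Agent.H452R2 Pool.Agent.H452R2.Win
open Pool.Agent.H383
open Pool.Agent.NH14.SM
open Pool.Agent.H25.GC (lv_sep10)

namespace Pool.Agent.H25.DV

/-- the error term of the divisor problem -/
noncomputable def Δ (x : ℝ) : ℝ :=
  (∑ n ∈ Finset.Icc 1 ⌊x⌋₊, (n.divisors.card : ℝ)) - x * Real.log x - (2 * Real.eulerMascheroniConstant - 1) * x

/-- the error term of the divisor problem at `t ^ 2` -/
noncomputable def P (t : ℝ) : ℝ := Δ (t ^ 2)

/-- large values at well-spaced points -/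
theorem P_sep {ε : ℝ} (hε : 0 < ε) : ∃ C : ℝ, 0 < C ∧
    ∀ (X H δ V : ℝ) (T : Finset ℝ), 4 ≤ X → 0 ≤ H → H ≤ X → 1 / X ≤ δ → δ ≤ 1 → 1 ≤ V →
      (∀ t ∈ T, (X ≤ t ∧ t ≤ X + H) ∧ V * √t ≤ |P t|) → Sep δ T →
      (T.card : ℝ) ≤ C * X ^ ε * (H / V^6 + H / (V^10 * δ) + X ^ (1/2:ℝ) / V^3 + 1 / (V^2 * δ)) := by
  classical
  obtain ⟨C, hC, h1⟩ := lv_sep10 (E := E2) ad_Bdw2 ad_zero wd_Wt (E2_SandW vor) hε
  refine ⟨C * 2 ^ ε * 2, by positivity, ?_⟩
  intro X H δ V T hX hH hHX hδX hδ1 hV hT hsep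
  have hX0 : 0 < X := by linarith
  have hδ0 : 0 < δ := lt_of_lt_of_le (by positivity) hδX
  have hV0 : 0 < V := by linarith
  have hinj : Set.InjOn (fun t : ℝ => 2 * t) T := by
    intro a _ b _ hab
    simp only at hab
    linarith
  have h2 := h1 (2 * X) (2 * H) δ V (T.image (fun t : ℝ => 2 * t)) (by linarith) (by linarith) (by linarith)
    ((one_div_le_one_div_of_le hX0 (by linarith)).trans hδX) hδ1 hV (by
      intro t' ht'
      rw [mem_image] at ht'
      obtain ⟨t, ht, rfl⟩ := ht'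
      obtain ⟨⟨h3, h4⟩, h5⟩ := hT t ht
      refine ⟨⟨by linarith, by linarith⟩, ?_⟩
      have ht0 : 0 < t := by linarith
      have hs : 0 < √t := Real.sqrt_pos.mpr ht0
      have h6 : |P t| = √t * |E2 (2 * t)| := by
        have e : E2 (2 * t) = P t / √t := by
          unfold E2 Ed P Δ
          rw [show 2 * t / 2 = t by ring]
          rfl
        rw [e, abs_div, abs_of_pos hs]
        field_simp
      rw [h6, mul_comm V] at h5
      exact le_of_mul_le_mul_left h5 hs) (by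
      intro x hx y hy hxy
      rw [mem_image] at hx hy
      obtain ⟨a, ha, rfl⟩ := hx
      obtain ⟨b, hb, rfl⟩ := hy
      have hab : a ≠ b := fun h => hxy (by rw [h])
      have h3 := hsep a ha b hb hab
      have e : 2 * a - 2 * b = 2 * (a - b) := by ring
      rw [e, abs_mul, abs_of_pos (by norm_num : (0:ℝ) < 2)]
      have := abs_nonneg (a - b)
      linarith)
  rw [card_image_of_injOn hinj] at h2
  refine h2.trans ?_
  rw [Real.mul_rpow (by norm_num : (0:ℝ) ≤ 2) hX0.le, Real.mul_rpow (by norm_num : (0:ℝ) ≤ 2) hX0.le]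
  have h7 : (2:ℝ) ^ (1/2:ℝ) ≤ 2 := by
    calc (2:ℝ) ^ (1/2:ℝ) ≤ 2 ^ (1:ℝ) := Real.rpow_le_rpow_of_exponent_le (by norm_num) (by norm_num)
      _ = 2 := Real.rpow_one 2
  have h8 : (2:ℝ) ^ (1/2:ℝ) * X ^ (1/2:ℝ) / V^3 ≤ 2 * (X ^ (1/2:ℝ) / V^3) := by
    rw [mul_div_assoc]
    exact mul_le_mul_of_nonneg_right h7 (by positivity)
  have h9 : 1 / (V^2 * δ) ≤ 2 * (1 / (V^2 * δ)) := by
    have : 0 ≤ 1 / (V^2 * δ) := by positivity
    linarith
  have h10 : 2 * H / V^6 = 2 * (H / V^6) := by ring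
  have h11 : 2 * H / (V^10 * δ) = 2 * (H / (V^10 * δ)) := by ring
  calc C * (2 ^ ε * X ^ ε) * (2 * H / V^6 + 2 * H / (V^10 * δ) + (2:ℝ) ^ (1/2:ℝ) * X ^ (1/2:ℝ) / V^3 + 1 / (V^2 * δ))
      ≤ C * (2 ^ ε * X ^ ε) * (2 * (H / V^6) + 2 * (H / (V^10 * δ)) + 2 * (X ^ (1/2:ℝ) / V^3) +
        2 * (1 / (V^2 * δ))) := by
        apply mul_le_mul_of_nonneg_left _ (by positivity)
        linarith
    _ = _ := by ring

end Pool.Agent.H25.DV
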