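import Mathlib
import Pool.Agent.H25.DV.Sep

/-! The measure of the set of points near a point with a large error term. -/

set_option autoImplicit false

open Finset Filter Topology MeasureTheory
open Pool.Agent.NH14.SM
open Pool.Agent.H25.GC (cells)

namespace Pool.Agent.H25.DV

/-- the radii within `ρ` of a radius with `|P| ≥ V √s` -/
def Near (V ρ : ℝ) : Set ℝ := {x | ∃ s : ℝ, |s - x| ≤ ρ ∧ V * √s ≤ |P s|}

/-- the measure of the radii of an interval near a radius with a large error term -/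
theorem meas_near {ε : ℝ} (hε : 0 < ε) : ∃ C : ℝ, 0 < C ∧
    ∀ (X H ρ V : ℝ), 8 ≤ X → 0 ≤ H → H ≤ X / 2 → 2 / X ≤ ρ → ρ ≤ 1 → 1 ≤ V →
      volume (Near V ρ ∩ Set.Icc X (X + H)) ≤
        ENNReal.ofReal (C * X ^ ε * (ρ * H / V^6 + H / V^10 + ρ * X ^ (1/2:ℝ) / V^3 + 1 / V^2)) := by
  obtain ⟨C, hC, hsep⟩ := P_sep hε
  refine ⟨24 * C, by positivity, ?_⟩
  intro X H ρ V hX hH hHX hρX hρ1 hV
  have hX0 : 0 < X := by linarith
  have hV0 : 0 < V := by linarith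
  have hρ0 : 0 < ρ := lt_of_lt_of_le (by positivity) hρX
  set Y : ℝ := X - 1 with hY
  have hY0 : 0 < Y := by rw [hY]; linarith
  set A : Set ℝ := {s | V * √s ≤ |P s|} with hA
  set n : ℕ := ⌊(H + 2) / ρ⌋₊ with hn
  have hn1 := Nat.floor_le (show 0 ≤ (H + 2) / ρ by positivity)
  have hn2 := Nat.lt_floor_add_one ((H + 2) / ρ)
  rw [← hn] at hn1 hn2
  rw [le_div_iff₀ hρ0] at hn1
  rw [div_lt_iff₀ hρ0] at hn2
  set G : ℝ := ρ * H / V^6 + H / V^10 + ρ * X ^ (1/2:ℝ) / V^3 + 1 / V^2 with hG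
  have hG0 : 0 ≤ G := by positivity
  have hX1 : 1 ≤ X := by linarith
  have hYε : Y ^ ε ≤ X ^ ε := Real.rpow_le_rpow hY0.le (by rw [hY]; linarith) hε.le
  have hB : ∀ T : Finset ℝ, (∀ t ∈ T, t ∈ A ∧ Y ≤ t ∧ t ≤ Y + (n + 1) * ρ) → Sep ρ T →
      (T.card : ℝ) ≤ 4 * C * X ^ ε * (G / ρ) := by
    intro T hT hs
    have h1 := hsep Y (H + 3) ρ V T (by rw [hY]; linarith) (by linarith) (by rw [hY]; linarith)
      (by
        rw [div_le_iff₀ hX0] at hρX
        rw [div_le_iff₀ hY0, hY]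
        nlinarith) hρ1 hV (fun t ht => ⟨⟨(hT t ht).2.1, by
          have h2 := (hT t ht).2.2
          nlinarith⟩, (hT t ht).1⟩) hs
    refine h1.trans ?_
    have h2 : Y ^ (1/2:ℝ) ≤ X ^ (1/2:ℝ) := Real.rpow_le_rpow hY0.le (by rw [hY]; linarith) (by norm_num)
    have hX12 : 1 ≤ X ^ (1/2:ℝ) := Real.one_le_rpow hX1 (by norm_num)
    have h3 : (H + 3) / V^6 + (H + 3) / (V^10 * ρ) + Y ^ (1/2:ℝ) / V^3 + 1 / (V^2 * ρ) ≤ 4 * (G / ρ) := by
      have e1 : G / ρ = H / V^6 + H / (V^10 * ρ) + X ^ (1/2:ℝ) / V^3 + 1 / (V^2 * ρ) := by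
        rw [hG]; field_simp
      rw [e1]
      have i1 : 3 / V^6 ≤ 3 * (X ^ (1/2:ℝ) / V^3) := by
        have : 1 / V ^ 6 ≤ 1 / V ^ 3 := by
          apply one_div_le_one_div_of_le (by positivity)
          exact pow_le_pow_right₀ hV (by norm_num)
        have h5 : 1 / V ^ 3 ≤ X ^ (1/2:ℝ) / V^3 := by gcongr
        have e : 3 / V^6 = 3 * (1 / V^6) := by ring
        rw [e]; linarith
      have i2 : 3 / (V^10 * ρ) ≤ 3 * (1 / (V^2 * ρ)) := by
        have : 1 / (V ^ 10 * ρ) ≤ 1 / (V ^ 2 * ρ) := by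
          apply one_div_le_one_div_of_le (by positivity)
          exact mul_le_mul_of_nonneg_right (pow_le_pow_right₀ hV (by norm_num)) hρ0.le
        have e : 3 / (V^10 * ρ) = 3 * (1 / (V^10 * ρ)) := by ring
        rw [e]; linarith
      have i3 : Y ^ (1/2:ℝ) / V^3 ≤ X ^ (1/2:ℝ) / V^3 := by gcongr
      have e2 : (H + 3) / V^6 = H / V^6 + 3 / V^6 := by ring
      have e3 : (H + 3) / (V^10 * ρ) = H / (V^10 * ρ) + 3 / (V^10 * ρ) := by ring
      have j1 : 0 ≤ H / V^6 := by positivity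
      have j2 : 0 ≤ H / (V^10 * ρ) := by positivity
      rw [e2, e3]
      linarith
    calc C * Y ^ ε * ((H + 3) / V^6 + (H + 3) / (V^10 * ρ) + Y ^ (1/2:ℝ) / V^3 + 1 / (V^2 * ρ))
        ≤ C * X ^ ε * (4 * (G / ρ)) := by
          apply mul_le_mul _ h3 (by positivity) (by positivity)
          exact mul_le_mul_of_nonneg_left hYε hC.le
      _ = _ := by ring
  obtain ⟨I, hI1, hI2⟩ := cells A hρ0 n hB
  have hsub : Near V ρ ∩ Set.Icc X (X + H) ⊆ ⋃ i ∈ I, Set.Icc (Y + (i - 1) * ρ) (Y + (i + 2) * ρ) := by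
    rintro x ⟨⟨s, hs1, hs2⟩, hx1, hx2⟩
    rw [abs_le] at hs1
    have h1 : Y ≤ s := by rw [hY]; linarith
    have h2 : s < Y + (n + 1) * ρ := by rw [hY]; linarith
    obtain ⟨i, hi, h3, h4⟩ := hI2 s hs2 h1 h2
    simp only [Set.mem_iUnion]
    exact ⟨i, hi, ⟨by linarith, by linarith⟩⟩
  calc volume (Near V ρ ∩ Set.Icc X (X + H))
      ≤ volume (⋃ i ∈ I, Set.Icc (Y + ((i : ℝ) - 1) * ρ) (Y + (i + 2) * ρ)) := measure_mono hsub
    _ ≤ ∑ i ∈ I, volume (Set.Icc (Y + ((i : ℝ) - 1) * ρ) (Y + (i + 2) * ρ)) := measure_biUnion_finset_le _ _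
    _ = ∑ i ∈ I, ENNReal.ofReal (3 * ρ) := by
        apply sum_congr rfl
        intro i _
        rw [Real.volume_Icc]
        congr 1
        ring
    _ = I.card * ENNReal.ofReal (3 * ρ) := by rw [sum_const, nsmul_eq_mul]
    _ = ENNReal.ofReal (I.card * (3 * ρ)) := by
        rw [ENNReal.ofReal_mul (Nat.cast_nonneg _), ENNReal.ofReal_natCast]
    _ ≤ _ := by
        apply ENNReal.ofReal_le_ofReal
        calc (I.card : ℝ) * (3 * ρ) ≤ (2 * (4 * C * X ^ ε * (G / ρ))) * (3 * ρ) := by gcongr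
          _ = _ := by field_simp; ring

end Pool.Agent.H25.DV
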