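import Mathlib
import Pool.Agent.H25.DV.Meas

/-! Almost all dilations, almost all translations. -/

set_option autoImplicit false

open Finset Filter Topology MeasureTheory

namespace Pool.Agent.H25.DV

/-- the error term is at most `s ^ θ` at all radii `s` within `x ^ (-β)` of `x` -/
def Good (θ β x : ℝ) : Prop := ∀ s : ℝ, |s - x| ≤ x ^ (-β) → |P s| ≤ s ^ θ

lemma Good.mono {θ θ' β β' x : ℝ} (hx : 2 ≤ x) (hβ : 0 ≤ β) (h : Good θ β x) (hθ : θ ≤ θ') (hββ : β ≤ β') :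
    Good θ' β' x := by
  intro s hs
  have h1 : x ^ (-β') ≤ x ^ (-β) := Real.rpow_le_rpow_of_exponent_le (by linarith) (by linarith)
  have h2 := h s (hs.trans h1)
  have h3 : x ^ (-β') ≤ 1 := Real.rpow_le_one_of_one_le_of_nonpos (by linarith) (by linarith)
  have h4 : 1 ≤ s := by
    have := (abs_le.mp (hs.trans h3)).1
    linarith
  exact h2.trans (Real.rpow_le_rpow_of_exponent_le h4 hθ)

/-- measure of the bad radii of `[X, 3X/2]` -/
theorem bad_meas {σ β ε : ℝ} (hσ : 0 < σ) (hσ1 : σ ≤ 1 / 8) (hβ : 0 ≤ β) (hβ1 : β ≤ 4 / 5) (hε : 0 < ε) :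
    ∃ C : ℝ, 0 < C ∧ ∀ X : ℝ, 1 ≤ X →
      volume ({x | ¬ Good (1 / 2 + σ) β x} ∩ Set.Icc X (3 / 2 * X)) ≤
        ENNReal.ofReal (C * X ^ (1 + ε - min (10 * σ) (β + 6 * σ))) := by
  obtain ⟨C, hC, hm⟩ := meas_near hε
  set m : ℝ := min (10 * σ) (β + 6 * σ) with hmdef
  set κ : ℝ := 1 + ε - m with hκ
  refine ⟨12 * C + 32 * max 1 ((32 : ℝ) ^ (-κ)), by positivity, ?_⟩
  intro X hX
  have hX0 : 0 < X := by linarith
  rcases lt_or_ge X 32 with hlt | hge
  · -- small X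
    have h1 : volume ({x | ¬ Good (1 / 2 + σ) β x} ∩ Set.Icc X (3 / 2 * X)) ≤ ENNReal.ofReal (X / 2) := by
      refine (measure_mono Set.inter_subset_right).trans (le_of_eq ?_)
      rw [Real.volume_Icc]
      congr 1
      ring
    refine h1.trans (ENNReal.ofReal_le_ofReal ?_)
    have h2 : 1 ≤ max 1 ((32 : ℝ) ^ (-κ)) * X ^ κ := by
      rcases le_or_gt 0 κ with h | h
      · calc (1 : ℝ) = 1 * 1 := by norm_num
          _ ≤ max 1 ((32 : ℝ) ^ (-κ)) * X ^ κ :=
            mul_le_mul (le_max_left _ _) (Real.one_le_rpow hX h) (by norm_num) (by positivity)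
      · calc (1 : ℝ) = (32 : ℝ) ^ (-κ) * (32 : ℝ) ^ κ := by rw [← Real.rpow_add (by norm_num)]; simp
          _ ≤ max 1 ((32 : ℝ) ^ (-κ)) * X ^ κ := by
            apply mul_le_mul (le_max_right _ _) _ (by positivity) (by positivity)
            exact Real.rpow_le_rpow_of_nonpos hX0 hlt.le h.le
    have h3 : 0 ≤ 12 * C * X ^ κ := by positivity
    calc X / 2 ≤ 32 * 1 := by linarith
      _ ≤ 32 * (max 1 ((32 : ℝ) ^ (-κ)) * X ^ κ) := by linarith
      _ ≤ _ := by linarith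
  · -- large X
    set V : ℝ := (X / 2) ^ σ with hV
    have hX2 : 1 ≤ X / 2 := by linarith
    have hV1 : 1 ≤ V := Real.one_le_rpow hX2 hσ.le
    set ρ : ℝ := X ^ (-β) with hρ
    have hρ1 : ρ ≤ 1 := Real.rpow_le_one_of_one_le_of_nonpos hX (by linarith)
    have hρ2 : 2 / X ≤ ρ := by
      rw [div_le_iff₀ hX0]
      have e1 : ρ * X = X ^ (1 - β) := by
        rw [hρ, ← Real.rpow_add_one hX0.ne']; congr 1; ring
      rw [e1]
      calc (2 : ℝ) = (32 : ℝ) ^ (1 / 5 : ℝ) := by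
            rw [show (32 : ℝ) = 2 ^ (5 : ℝ) by norm_num, ← Real.rpow_mul (by norm_num)]; norm_num
        _ ≤ X ^ (1 / 5 : ℝ) := Real.rpow_le_rpow (by norm_num) hge (by norm_num)
        _ ≤ X ^ (1 - β) := Real.rpow_le_rpow_of_exponent_le hX (by linarith)
    have hsub : {x | ¬ Good (1 / 2 + σ) β x} ∩ Set.Icc X (3 / 2 * X) ⊆ Near V ρ ∩ Set.Icc X (X + X / 2) := by
      rintro x ⟨hx, hx1, hx2⟩
      refine ⟨?_, hx1, by linarith⟩
      simp only [Set.mem_ofPred_eq, Good, not_forall, not_le] at hx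
      obtain ⟨s, hs1, hs2⟩ := hx
      have h1 : x ^ (-β) ≤ ρ := Real.rpow_le_rpow_of_nonpos hX0 hx1 (by linarith)
      have h2 := hs1.trans h1
      refine ⟨s, h2, ?_⟩
      have h3 : X / 2 ≤ s := by
        have := (abs_le.mp (h2.trans hρ1)).1
        linarith
      have hs0 : 0 < s := by linarith
      have h4 : s ^ (1 / 2 + σ) = s ^ σ * √s := by
        rw [Real.rpow_add hs0, Real.sqrt_eq_rpow]; ring
      rw [h4] at hs2
      refine le_trans ?_ hs2.le
      apply mul_le_mul_of_nonneg_right _ (Real.sqrt_nonneg _)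
      exact Real.rpow_le_rpow (by linarith) h3 hσ.le
    refine (measure_mono hsub).trans ((hm X (X / 2) ρ V (by linarith) (by linarith) le_rfl hρ2 hρ1 hV1).trans ?_)
    apply ENNReal.ofReal_le_ofReal
    have hVk : ∀ k : ℕ, k ≤ 10 → 1 / V ^ k ≤ 4 * X ^ (-(k * σ)) := by
      intro k hk
      have hk' : (k : ℝ) ≤ 10 := by exact_mod_cast hk
      have e1 : V ^ k = (X / 2) ^ (k * σ) := by
        rw [hV, ← Real.rpow_natCast, ← Real.rpow_mul (by linarith)]; congr 1; ring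
      rw [e1, Real.div_rpow hX0.le (by norm_num), one_div_div, div_eq_mul_inv, ← Real.rpow_neg hX0.le]
      apply mul_le_mul_of_nonneg_right _ (by positivity)
      calc (2 : ℝ) ^ (k * σ) ≤ 2 ^ (2 : ℝ) := by
            apply Real.rpow_le_rpow_of_exponent_le (by norm_num)
            nlinarith
        _ = 4 := by norm_num
    have m1 : m ≤ 10 * σ := min_le_left _ _
    have m2 : m ≤ β + 6 * σ := min_le_right _ _
    have t1 : ρ * (X / 2) / V ^ 6 ≤ 2 * X ^ (1 - m) := by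
      calc ρ * (X / 2) / V ^ 6 = (ρ * X / 2) * (1 / V ^ 6) := by ring
        _ ≤ (ρ * X / 2) * (4 * X ^ (-((6 : ℕ) * σ))) := mul_le_mul_of_nonneg_left (hVk 6 (by norm_num)) (by positivity)
        _ = 2 * (X ^ (-β) * X ^ (1 : ℝ) * X ^ (-((6 : ℕ) * σ))) := by rw [Real.rpow_one]; ring
        _ = 2 * X ^ (-β + 1 + -((6 : ℕ) * σ)) := by rw [← Real.rpow_add hX0, ← Real.rpow_add hX0]
        _ ≤ _ := by
            apply mul_le_mul_of_nonneg_left _ (by norm_num)
            apply Real.rpow_le_rpow_of_exponent_le hX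
            push_cast; linarith
    have t2 : (X / 2) / V ^ 10 ≤ 2 * X ^ (1 - m) := by
      calc (X / 2) / V ^ 10 = (X / 2) * (1 / V ^ 10) := by ring
        _ ≤ (X / 2) * (4 * X ^ (-((10 : ℕ) * σ))) := mul_le_mul_of_nonneg_left (hVk 10 le_rfl) (by positivity)
        _ = 2 * (X ^ (1 : ℝ) * X ^ (-((10 : ℕ) * σ))) := by rw [Real.rpow_one]; ring
        _ = 2 * X ^ (1 + -((10 : ℕ) * σ)) := by rw [← Real.rpow_add hX0]
        _ ≤ _ := by
            apply mul_le_mul_of_nonneg_left _ (by norm_num)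
            apply Real.rpow_le_rpow_of_exponent_le hX
            push_cast; linarith
    have t3 : ρ * X ^ (1 / 2 : ℝ) / V ^ 3 ≤ 4 * X ^ (1 - m) := by
      calc ρ * X ^ (1 / 2 : ℝ) / V ^ 3 = (ρ * X ^ (1 / 2 : ℝ)) * (1 / V ^ 3) := by ring
        _ ≤ (ρ * X ^ (1 / 2 : ℝ)) * (4 * X ^ (-((3 : ℕ) * σ))) :=
            mul_le_mul_of_nonneg_left (hVk 3 (by norm_num)) (by positivity)
        _ = 4 * (X ^ (-β) * X ^ (1 / 2 : ℝ) * X ^ (-((3 : ℕ) * σ))) := by ring
        _ = 4 * X ^ (-β + 1 / 2 + -((3 : ℕ) * σ)) := by rw [← Real.rpow_add hX0, ← Real.rpow_add hX0]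
        _ ≤ _ := by
            apply mul_le_mul_of_nonneg_left _ (by norm_num)
            apply Real.rpow_le_rpow_of_exponent_le hX
            push_cast; linarith
    have t4 : 1 / V ^ 2 ≤ 4 * X ^ (1 - m) := by
      refine (hVk 2 (by norm_num)).trans ?_
      apply mul_le_mul_of_nonneg_left _ (by norm_num)
      apply Real.rpow_le_rpow_of_exponent_le hX
      push_cast; linarith
    have e5 : X ^ ε * X ^ (1 - m) = X ^ κ := by
      rw [← Real.rpow_add hX0]; congr 1; rw [hκ]; ring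
    calc C * X ^ ε * (ρ * (X / 2) / V ^ 6 + X / 2 / V ^ 10 + ρ * X ^ (1 / 2 : ℝ) / V ^ 3 + 1 / V ^ 2)
        ≤ C * X ^ ε * (12 * X ^ (1 - m)) := by
          apply mul_le_mul_of_nonneg_left _ (by positivity)
          linarith
      _ = 12 * C * X ^ κ := by rw [← e5]; ring
      _ ≤ _ := by
          have : 0 ≤ 32 * max 1 ((32 : ℝ) ^ (-κ)) * X ^ κ := by positivity
          linarith

/-- measure of the bad dilations -/
lemma dil_meas {σ β ε a : ℝ} (hσ : 0 < σ) (hσ1 : σ ≤ 1 / 8) (hβ : 0 ≤ β) (hβ1 : β ≤ 4 / 5) (hε : 0 < ε)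
    (ha : 0 < a) : ∃ C : ℝ, 0 < C ∧ ∀ u : ℝ, 1 / a ≤ u →
      volume ({α | ¬ Good (1 / 2 + σ) β (α * u)} ∩ Set.Icc a (3 / 2 * a)) ≤
        ENNReal.ofReal (C * u ^ (ε - min (10 * σ) (β + 6 * σ))) := by
  obtain ⟨C, hC, h⟩ := bad_meas hσ hσ1 hβ hβ1 hε
  set m : ℝ := min (10 * σ) (β + 6 * σ) with hm
  refine ⟨C * a ^ (1 + ε - m), by positivity, ?_⟩
  intro u hu
  have hu0 : 0 < u := lt_of_lt_of_le (by positivity) hu
  have hau : 1 ≤ a * u := by
    rw [div_le_iff₀ ha] at hu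
    linarith
  have h1 := h (a * u) hau
  have hsub : {α | ¬ Good (1 / 2 + σ) β (α * u)} ∩ Set.Icc a (3 / 2 * a) ⊆
      (fun x => x * u) ⁻¹' ({x | ¬ Good (1 / 2 + σ) β x} ∩ Set.Icc (a * u) (3 / 2 * (a * u))) := by
    rintro α ⟨h2, h3, h4⟩
    exact ⟨h2, mul_le_mul_of_nonneg_right h3 hu0.le, by
      have := mul_le_mul_of_nonneg_right h4 hu0.le
      simp only
      linarith⟩
  refine (measure_mono hsub).trans ?_
  rw [Real.volume_preimage_mul_right hu0.ne']
  calc ENNReal.ofReal |u⁻¹| * volume ({x | ¬ Good (1 / 2 + σ) β x} ∩ Set.Icc (a * u) (3 / 2 * (a * u)))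
      ≤ ENNReal.ofReal |u⁻¹| * ENNReal.ofReal (C * (a * u) ^ (1 + ε - m)) := by gcongr
    _ = ENNReal.ofReal (|u⁻¹| * (C * (a * u) ^ (1 + ε - m))) := by
        rw [ENNReal.ofReal_mul (abs_nonneg _)]
    _ = _ := by
        congr 1
        rw [abs_of_pos (by positivity), Real.mul_rpow ha.le hu0.le,
          show (1 + ε - m) = 1 + (ε - m) by ring, Real.rpow_add hu0, Real.rpow_one]
        field_simp

/-- the powers `(3/2)^i` cover the positive reals -/
lemma cover_pos : Set.Ioi (0 : ℝ) ⊆ ⋃ i : ℤ, Set.Icc ((3 / 2 : ℝ) ^ i) (3 / 2 * (3 / 2 : ℝ) ^ i) := by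
  intro x hx
  obtain ⟨n, hn1, hn2⟩ := exists_mem_Ico_zpow (x := x) (y := (3 / 2 : ℝ)) hx (by norm_num)
  rw [Set.mem_iUnion]
  refine ⟨n, hn1, ?_⟩
  rw [zpow_add_one₀ (by norm_num)] at hn2
  linarith

/-- almost all dilations of a sequence -/
theorem dilations {τ : ℝ} (hτ : 0 ≤ τ) (hτ1 : τ ≤ 1) (u : ℕ → ℝ) (hu : ∀ k, 0 < u k)
    (hsum : ∀ t : ℝ, τ < t → Summable (fun k => (u k) ^ (-t))) :
    ∀ᵐ α ∂(volume.restrict (Set.Ioi (0 : ℝ))), ∀ ε : ℝ, 0 < ε → ∀ᶠ k in atTop,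
      Good (1 / 2 + τ / 10 + ε) (2 / 5 * τ) (α * u k) := by
  have hutop : Tendsto u atTop atTop := by
    have h1 := (hsum (τ + 1) (by linarith)).tendsto_atTop_zero
    rw [tendsto_atTop]
    intro b
    have hb : 0 < (max b 1) ^ (-(τ + 1)) := by positivity
    filter_upwards [h1.eventually (gt_mem_nhds hb)] with k hk
    by_contra hcon
    push Not at hcon
    have h2 : (max b 1) ^ (-(τ + 1)) ≤ (u k) ^ (-(τ + 1)) :=
      Real.rpow_le_rpow_of_nonpos (hu k) (hcon.le.trans (le_max_left _ _)) (by linarith)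
    linarith
  -- one interval, one epsilon
  have key : ∀ (i : ℤ) (n : ℕ), ∀ᵐ α ∂(volume.restrict (Set.Icc ((3 / 2 : ℝ) ^ i) (3 / 2 * (3 / 2 : ℝ) ^ i))),
      ∀ᶠ k in atTop, Good (1 / 2 + (τ / 10 + 1 / (40 * (n + 1)))) (2 / 5 * τ) (α * u k) := by
    intro i n
    set a : ℝ := (3 / 2 : ℝ) ^ i with ha
    have ha0 : 0 < a := by positivity
    set η : ℝ := 1 / (40 * ((n : ℝ) + 1)) with hη
    have hη0 : 0 < η := by positivity
    have hη1 : η ≤ 1 / 40 := by
      rw [hη]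
      apply one_div_le_one_div_of_le (by norm_num)
      have : (0 : ℝ) ≤ n := Nat.cast_nonneg n
      linarith
    obtain ⟨C, hC, h1⟩ := dil_meas (σ := τ / 10 + η) (β := 2 / 5 * τ) (ε := η) (a := a) (by positivity)
      (by linarith) (by positivity) (by linarith) hη0 ha0
    set s : ℕ → Set ℝ := fun k => {α | (1 / a ≤ u k ∧ 1 ≤ u k) ∧ ¬ Good (1 / 2 + (τ / 10 + η)) (2 / 5 * τ) (α * u k)} with hs
    have h2 : ∑' k, (volume.restrict (Set.Icc a (3 / 2 * a))) (s k) ≠ ⊤ := by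
      have h3 : ∀ k, (volume.restrict (Set.Icc a (3 / 2 * a))) (s k) ≤ ENNReal.ofReal (C * (u k) ^ (-(τ + 4 * η))) := by
        intro k
        rw [Measure.restrict_apply' measurableSet_Icc]
        by_cases h4 : 1 / a ≤ u k ∧ 1 ≤ u k
        · have h5 : s k ∩ Set.Icc a (3 / 2 * a) ⊆
              {α | ¬ Good (1 / 2 + (τ / 10 + η)) (2 / 5 * τ) (α * u k)} ∩ Set.Icc a (3 / 2 * a) :=
            Set.inter_subset_inter_left _ (fun α hα => hα.2)
          refine (measure_mono h5).trans ((h1 (u k) h4.1).trans ?_)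
          apply ENNReal.ofReal_le_ofReal
          apply mul_le_mul_of_nonneg_left _ hC.le
          apply Real.rpow_le_rpow_of_exponent_le h4.2
          have h6 : τ + 6 * η ≤ min (10 * (τ / 10 + η)) (2 / 5 * τ + 6 * (τ / 10 + η)) :=
            le_min (by linarith) (by linarith)
          linarith
        · have : s k = ∅ := by
            ext α
            simp only [hs, Set.mem_ofPred_eq, Set.mem_empty_iff_false, iff_false]
            exact fun h => h4 h.1
          rw [this, Set.empty_inter, measure_empty]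
          exact bot_le
      refine ne_top_of_le_ne_top ?_ (ENNReal.tsum_le_tsum h3)
      exact ((hsum (τ + 4 * η) (by linarith)).mul_left C).tsum_ofReal_ne_top
    have h4 := ae_eventually_notMem h2
    filter_upwards [h4] with α hα
    filter_upwards [hα, hutop.eventually_ge_atTop (1 / a), hutop.eventually_ge_atTop 1] with k hk1 hk2 hk3
    by_contra hcon
    exact hk1 ⟨⟨hk2, hk3⟩, hcon⟩
  have key2 : ∀ᵐ α ∂(volume.restrict (Set.Ioi (0 : ℝ))), ∀ n : ℕ,
      ∀ᶠ k in atTop, Good (1 / 2 + (τ / 10 + 1 / (40 * (n + 1)))) (2 / 5 * τ) (α * u k) := by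
    rw [ae_all_iff]
    intro n
    exact ae_mono (Measure.restrict_mono_set volume cover_pos)
      ((ae_restrict_iUnion_iff _ _).mpr (fun i => key i n))
  have hpos : ∀ᵐ α ∂(volume.restrict (Set.Ioi (0 : ℝ))), 0 < α := ae_restrict_mem measurableSet_Ioi
  filter_upwards [key2, hpos] with α hα hα0
  intro ε hε
  obtain ⟨n, hn⟩ := exists_nat_one_div_lt hε
  have h1 : Tendsto (fun k => α * u k) atTop atTop := hutop.const_mul_atTop hα0
  filter_upwards [hα n, h1.eventually_ge_atTop 2] with k hk1 hk2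
  refine hk1.mono hk2 (by positivity) ?_ le_rfl
  have h3 : 1 / (40 * ((n : ℝ) + 1)) ≤ 1 / ((n : ℝ) + 1) := by
    apply one_div_le_one_div_of_le (by positivity)
    have : (0 : ℝ) ≤ n := Nat.cast_nonneg n
    linarith
  linarith

end Pool.Agent.H25.DV
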