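import Mathlib
import Pool.Agent.H25.DV.Dim

/-! The divisor problem: from the variable `s = √x` to the variable `x`. -/

set_option autoImplicit false

open Finset Filter Topology MeasureTheory

namespace Pool.Agent.H25.DV

/-- the error term is at most `x ^ θ` at all `x` within `y ^ lam` of `y` -/
def GoodX (θ lam y : ℝ) : Prop := ∀ x : ℝ, |x - y| ≤ y ^ lam → |Δ x| ≤ x ^ θ

lemma Delta_zero : Δ 0 = 0 := by
  unfold Δ; simp

lemma bridge {θ β y : ℝ} (hθ : 0 < θ) (hy : 1 ≤ y) (hβ : 0 ≤ β) (h : Good (2 * θ) β (√y)) :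
    GoodX θ ((1 - β) / 2) y := by
  intro x hx
  have hy0 : 0 < y := by linarith
  have hsy : 0 < √y := Real.sqrt_pos.mpr hy0
  have hyl : y ^ ((1 - β) / 2) ≤ y := by
    calc y ^ ((1 - β) / 2) ≤ y ^ (1 : ℝ) := Real.rpow_le_rpow_of_exponent_le hy (by linarith)
      _ = y := Real.rpow_one y
  have hx0 : 0 ≤ x := by
    have := (abs_le.mp (hx.trans hyl)).1
    linarith
  have e1 : P (√x) = Δ x := by unfold P; rw [Real.sq_sqrt hx0]
  have e2 : (√x) ^ (2 * θ) = x ^ θ := by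
    rw [Real.sqrt_eq_rpow, ← Real.rpow_mul hx0]; congr 1; ring
  have h1 : |√x - √y| ≤ (√y) ^ (-β) := by
    have h2 : |√x - √y| * √y ≤ y ^ ((1 - β) / 2) := by
      have h3 : |√x - √y| * (√x + √y) = |x - y| := by
        rw [← abs_of_pos (show 0 < √x + √y by positivity), ← abs_mul]
        congr 1
        have a1 := Real.mul_self_sqrt hx0
        have a2 := Real.mul_self_sqrt hy0.le
        linear_combination a1 - a2
      have h4 : |√x - √y| * √y ≤ |√x - √y| * (√x + √y) :=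
        mul_le_mul_of_nonneg_left (by have := Real.sqrt_nonneg x; linarith) (abs_nonneg _)
      linarith
    have h5 : (√y) ^ (-β) * √y = y ^ ((1 - β) / 2) := by
      rw [← Real.rpow_add_one hsy.ne', Real.sqrt_eq_rpow, ← Real.rpow_mul hy0.le]; congr 1; ring
    rw [← h5] at h2
    exact le_of_mul_le_mul_right h2 hsy
  have h6 := h (√x) h1
  rwa [e1, e2] at h6

lemma top_of_sum {τ : ℝ} (hτ : 0 ≤ τ) (u : ℕ → ℝ) (hu : ∀ k, 0 < u k)
    (hsum : ∀ t : ℝ, τ < t → Summable (fun k => (u k) ^ (-t))) : Tendsto u atTop atTop := by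
  have h1 := (hsum (τ + 1) (by linarith)).tendsto_atTop_zero
  rw [tendsto_atTop]
  intro b
  have hb : 0 < (max b 1) ^ (-(τ + 1)) := by positivity
  filter_upwards [h1.eventually (gt_mem_nhds hb)] with k hk
  by_contra hcon
  push Not at hcon
  have h2 : (max b 1) ^ (-(τ + 1)) ≤ (u k) ^ (-(τ + 1)) :=
    Real.rpow_le_rpow_of_nonpos (hu k) (hcon.le.trans (le_max_left _ _)) (by linarith)
  linarith

lemma sqrt_sum {τ : ℝ} (u : ℕ → ℝ) (hu : ∀ k, 0 < u k)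
    (hsum : ∀ t : ℝ, τ < t → Summable (fun k => (u k) ^ (-t))) :
    ∀ t : ℝ, 2 * τ < t → Summable (fun k => (√(u k)) ^ (-t)) := by
  intro t ht
  refine (hsum (t / 2) (by linarith)).congr (fun k => ?_)
  rw [Real.sqrt_eq_rpow, ← Real.rpow_mul (hu k).le]; congr 1; ring

lemma imsub {θ β : ℝ} (hθ : 0 < θ) (hβ : 0 ≤ β) (u : ℕ → ℝ) (hu : ∀ k, 0 < u k)
    (hutop : Tendsto u atTop atTop) :
    {α : ℝ | 0 < α ∧ ∃ᶠ k in atTop, ¬ GoodX θ ((1 - β) / 2) (α * u k)} ⊆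
      (fun a : ℝ => a ^ 2) '' {a : ℝ | 0 < a ∧ ∃ᶠ k in atTop, ¬ Good (2 * θ) β (a * √(u k))} := by
  rintro α ⟨hα, hf⟩
  refine ⟨√α, ⟨Real.sqrt_pos.mpr hα, ?_⟩, Real.sq_sqrt hα.le⟩
  have h1 : ∀ᶠ k in atTop, 1 ≤ α * u k := by
    filter_upwards [hutop.eventually_ge_atTop (1 / α)] with k hk
    rw [div_le_iff₀ hα] at hk
    linarith
  refine (hf.and_eventually h1).mono ?_
  rintro k ⟨h2, h3⟩ hg
  rw [← Real.sqrt_mul hα.le] at hg
  exact h2 (bridge hθ h3 hβ hg)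

/-- the dimension of the set of bad dilations -/
theorem dim_x {τ η : ℝ} (hτ : 0 ≤ τ) (hη : 0 < η) (hη1 : η ≤ 1 / 12) {β : ℝ}
    (hβ0 : 0 ≤ β) (hβ1 : β ≤ 8 * η) (hβ2 : β ≤ 1 - 8 * η) (u : ℕ → ℝ) (hu : ∀ k, 0 < u k)
    (hsum : ∀ t : ℝ, τ < t → Summable (fun k => (u k) ^ (-t))) :
    dimH {α : ℝ | 0 < α ∧ ∃ᶠ k in atTop, ¬ GoodX (1 / 4 + η) ((1 - β) / 2) (α * u k)} ≤
      ENNReal.ofReal ((1 + 2 * τ - 12 * η) / (1 + β)) := by
  refine (dimH_mono (imsub (by linarith) hβ0 u hu (top_of_sum hτ u hu hsum))).trans ?_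
  have h1 : dimH ((fun a : ℝ => a ^ 2) '' {a : ℝ | 0 < a ∧ ∃ᶠ k in atTop, ¬ Good (2 * (1 / 4 + η)) β (a * √(u k))}) ≤
      dimH {a : ℝ | 0 < a ∧ ∃ᶠ k in atTop, ¬ Good (2 * (1 / 4 + η)) β (a * √(u k))} := by
    refine ContDiffOn.dimH_image_le (s := Set.univ) ?_ convex_univ (Set.subset_univ _)
    exact (contDiff_id.pow 2).contDiffOn
  refine h1.trans ?_
  have h2 := dim_bad (τ := 2 * τ) (η := 2 * η) (by linarith) (by linarith) (by linarith) (β := β)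
    hβ0 (by linarith) (by linarith) (fun k => √(u k)) (fun k => Real.sqrt_pos.mpr (hu k)) (sqrt_sum u hu hsum)
  have e1 : (1 / 2 + 2 * η : ℝ) = 2 * (1 / 4 + η) := by ring
  have e2 : (1 + 2 * τ - 6 * (2 * η)) = 1 + 2 * τ - 12 * η := by ring
  rw [e1, e2] at h2
  exact h2

/-- almost all dilations -/
theorem ae_x {τ : ℝ} (hτ : 0 ≤ τ) (hτ1 : τ ≤ 1 / 2) (u : ℕ → ℝ) (hu : ∀ k, 0 < u k)
    (hsum : ∀ t : ℝ, τ < t → Summable (fun k => (u k) ^ (-t))) :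
    ∀ᵐ α : ℝ, 0 < α → ∀ ε : ℝ, 0 < ε → ∀ᶠ k in atTop,
      GoodX (1 / 4 + τ / 10 + ε) (1 / 2 - 2 / 5 * τ) (α * u k) := by
  have hutop := top_of_sum hτ u hu hsum
  have h0 := (ae_restrict_iff' measurableSet_Ioi).mp (dilations (τ := 2 * τ) (by linarith) (by linarith)
    (fun k => √(u k)) (fun k => Real.sqrt_pos.mpr (hu k)) (sqrt_sum u hu hsum))
  rw [ae_iff] at h0 ⊢
  set B : Set ℝ := {a : ℝ | ¬ (a ∈ Set.Ioi (0 : ℝ) → ∀ ε : ℝ, 0 < ε → ∀ᶠ k in atTop,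
      Good (1 / 2 + 2 * τ / 10 + ε) (2 / 5 * (2 * τ)) (a * √(u k)))} with hB
  have h1 : volume ((fun a : ℝ => a ^ 2) '' B) = 0 := by
    apply addHaar_image_eq_zero_of_differentiableOn_of_addHaar_eq_zero volume _ h0
    exact (differentiable_id.pow 2).differentiableOn
  refine measure_mono_null ?_ h1
  intro α hα
  simp only [Set.mem_ofPred_eq, not_forall] at hα
  obtain ⟨hα0, ε, hε, hn⟩ := hα
  refine ⟨√α, ?_, Real.sq_sqrt hα0.le⟩
  simp only [hB, Set.mem_ofPred_eq, Set.mem_Ioi, not_forall]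
  refine ⟨Real.sqrt_pos.mpr hα0, 2 * ε, by linarith, ?_⟩
  intro hg
  apply hn
  filter_upwards [hg, hutop.eventually_ge_atTop (1 / α)] with k hk hk2
  have h3 : 1 ≤ α * u k := by
    rw [div_le_iff₀ hα0] at hk2
    linarith
  rw [← Real.sqrt_mul hα0.le] at hk
  have e1 : (1 / 2 + 2 * τ / 10 + 2 * ε : ℝ) = 2 * (1 / 4 + τ / 10 + ε) := by ring
  rw [e1] at hk
  have h4 := bridge (by linarith) h3 (by linarith) hk
  have e2 : (1 - 2 / 5 * (2 * τ)) / 2 = 1 / 2 - 2 / 5 * τ := by ring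
  rwa [e2] at h4

end Pool.Agent.H25.DV
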